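import Mathlib

/-!
# The projective free hyperoctahedral quantum group is not a quantum permutation group

The `*`-algebra of the free hyperoctahedral quantum group maps onto the group algebra of the
infinite dihedral group (realised below by `2 × 2` matrices of continuous functions on the circle),
and the subalgebra of the projective version is mapped onto a commutative algebra of Laurent
polynomials, in which `0` and `1` are the only idempotents. As the function algebra of a quantum
permutation group is generated by idempotents, the projective version is not a quantum subgroup of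
any quantum symmetric group, and in particular not the quantum automorphism group of a graph.
-/

namespace Pool.Agent.Results.MP_8a5df5_al.NotQuantumPermutation

open Matrix

noncomputable section

/-- The entries of `u` are self-adjoint, `u` is orthogonal, and `u` is cubic: products of distinct
entries of one row or of one column vanish. -/
structure IsCubicOrthogonal {n : ℕ} {A : Type} [Ring A] [StarRing A]
    (u : Matrix (Fin n) (Fin n) A) : Prop where
  selfAdjoint : ∀ i j, star (u i j) = u i j
  mul_transpose : u * uᵀ = 1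
  transpose_mul : uᵀ * u = 1
  cubic_row : ∀ i j k, j ≠ k → u i j * u i k = 0
  cubic_col : ∀ i j k, j ≠ k → u j i * u k i = 0

/-- `u` is a magic unitary: its entries are projections (self-adjoint idempotents), and all rows
and all columns of `u` have sum `1`. -/
structure IsMagic {V : Type} [Fintype V] {A : Type} [Ring A] [StarRing A]
    (u : Matrix V V A) : Prop where
  selfAdjoint : ∀ i j, star (u i j) = u i j
  idem : ∀ i j, u i j * u i j = u i j
  row : ∀ i, ∑ j, u i j = 1
  col : ∀ j, ∑ i, u i j = 1

/-- The complex `*`-algebra `A` with the elements `u i j` is the universal `*`-algebra generated by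
the entries of a self-adjoint orthogonal cubic `n × n` matrix, that is, the `*`-algebra of
polynomial functions on the free hyperoctahedral quantum group `H_n^+`. -/
structure IsHyperoctahedral (n : ℕ) (A : Type) [Ring A] [StarRing A] [Algebra ℂ A] [StarModule ℂ A]
    (u : Matrix (Fin n) (Fin n) A) : Prop where
  rel : IsCubicOrthogonal u
  generates : Algebra.adjoin ℂ {a | ∃ i j, a = u i j} = ⊤
  universal : ∀ (B : Type) [Ring B] [StarRing B] [Algebra ℂ B] [StarModule ℂ B]
    (v : Matrix (Fin n) (Fin n) B), IsCubicOrthogonal v →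
      ∃ f : A →⋆ₐ[ℂ] B, ∀ i j, f (u i j) = v i j

/-- The complex `*`-algebra `S` with the elements `w i j` is the universal `*`-algebra generated by
the entries of an `N × N` magic unitary, that is, the `*`-algebra of polynomial functions on the
quantum symmetric group `S_N^+`. -/
structure IsQuantumSymmetric (N : ℕ) (S : Type) [Ring S] [StarRing S] [Algebra ℂ S]
    [StarModule ℂ S] (w : Matrix (Fin N) (Fin N) S) : Prop where
  rel : IsMagic w
  generates : Algebra.adjoin ℂ {a | ∃ i j, a = w i j} = ⊤
  universal : ∀ (B : Type) [Ring B] [StarRing B] [Algebra ℂ B] [StarModule ℂ B]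
    (v : Matrix (Fin N) (Fin N) B), IsMagic v → ∃ f : S →⋆ₐ[ℂ] B, ∀ i j, f (w i j) = v i j

/-- The complex `*`-algebra `S` with the elements `w i j` is the universal `*`-algebra generated by
the entries of a magic unitary (indexed by the vertices) which commutes with the adjacency matrix
of the finite simple graph `X`, that is, the `*`-algebra of polynomial functions on the quantum
automorphism group of `X`. -/
structure IsQuantumAut {V : Type} [Fintype V] (X : SimpleGraph V) [DecidableRel X.Adj]
    (S : Type) [Ring S] [StarRing S] [Algebra ℂ S] [StarModule ℂ S] (w : Matrix V V S) : Prop where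
  rel : IsMagic w
  comm : w * X.adjMatrix S = X.adjMatrix S * w
  generates : Algebra.adjoin ℂ {a | ∃ i j, a = w i j} = ⊤
  universal : ∀ (B : Type) [Ring B] [StarRing B] [Algebra ℂ B] [StarModule ℂ B]
    (v : Matrix V V B), IsMagic v → v * X.adjMatrix B = X.adjMatrix B * v →
      ∃ f : S →⋆ₐ[ℂ] B, ∀ i j, f (w i j) = v i j

/-- The subalgebra generated by all products `u i j * u k l` (it is closed under `star` if the
`u i j` are self-adjoint). For the universal `u` of `H_n^+` this is the algebra of polynomial
functions on the projective version `PH_n^+`. -/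
def projective {n : ℕ} {A : Type} [Ring A] [Algebra ℂ A] (u : Matrix (Fin n) (Fin n) A) :
    Subalgebra ℂ A :=
  Algebra.adjoin ℂ {a | ∃ i j k l, a = u i j * u k l}

/-! ### The dihedral representation -/

/-- The commutative algebra of continuous functions on the circle. -/
abbrev C := C(Circle, ℂ)

/-- The identity function. -/
def z : C := ⟨fun x => (x : ℂ), by fun_prop⟩

/-- Two reflections. -/
def g (n : ℕ) (i : Fin n) : Matrix (Fin 2) (Fin 2) C :=
  if i.1 = 0 then !![0, 1; 1, 0] else !![0, z; star z, 0]

theorem z_apply (x : Circle) : z x = (x : ℂ) := rfl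

theorem star_z_mul : star z * z = 1 := by
  ext x
  rw [ContinuousMap.mul_apply, ContinuousMap.star_apply, z_apply, ContinuousMap.one_apply]
  change (starRingEnd ℂ) (x : ℂ) * (x : ℂ) = 1
  rw [← Complex.normSq_eq_conj_mul_self, Circle.normSq_coe]
  simp

theorem z_mul_star : z * star z = 1 := by
  rw [mul_comm, star_z_mul]

theorem g_sq (n : ℕ) (i : Fin n) : g n i * g n i = 1 := by
  unfold g
  split_ifs
  · ext i j
    fin_cases i <;> fin_cases j <;> simp [Matrix.mul_apply, Fin.sum_univ_two]
  · ext i j
    fin_cases i <;> fin_cases j <;>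
      simp [Matrix.mul_apply, Fin.sum_univ_two, star_z_mul, z_mul_star]

theorem g_star (n : ℕ) (i : Fin n) : star (g n i) = g n i := by
  unfold g
  split_ifs
  · ext i j
    fin_cases i <;> fin_cases j <;> simp
  · ext i j
    fin_cases i <;> fin_cases j <;> simp

/-- The matrix with the reflections on its diagonal. -/
def v (n : ℕ) : Matrix (Fin n) (Fin n) (Matrix (Fin 2) (Fin 2) C) := Matrix.diagonal (g n)

theorem cubic_v (n : ℕ) : IsCubicOrthogonal (v n) where
  selfAdjoint i j := by
    unfold v
    by_cases h : i = j
    · subst h; simp [g_star]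
    · simp [Matrix.diagonal_apply_ne _ h]
  mul_transpose := by
    unfold v
    rw [Matrix.diagonal_transpose, Matrix.diagonal_mul_diagonal]
    simp [g_sq]
  transpose_mul := by
    unfold v
    rw [Matrix.diagonal_transpose, Matrix.diagonal_mul_diagonal]
    simp [g_sq]
  cubic_row i j k h := by
    unfold v
    by_cases h1 : i = j
    · subst h1; rw [Matrix.diagonal_apply_ne _ h, mul_zero]
    · rw [Matrix.diagonal_apply_ne _ h1, zero_mul]
  cubic_col i j k h := by
    unfold v
    by_cases h1 : j = i
    · subst h1; rw [Matrix.diagonal_apply_ne _ h.symm, mul_zero]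
    · rw [Matrix.diagonal_apply_ne _ h1, zero_mul]

/-- A `2 × 2` matrix is diagonal. -/
def Diag (M : Matrix (Fin 2) (Fin 2) C) : Prop := M 0 1 = 0 ∧ M 1 0 = 0

theorem diag_mul_apply {M N : Matrix (Fin 2) (Fin 2) C} (hM : Diag M) (hN : Diag N) :
    Diag (M * N) ∧ (M * N) 1 1 = M 1 1 * N 1 1 := by
  obtain ⟨h1, h2⟩ := hM
  obtain ⟨h3, h4⟩ := hN
  refine ⟨⟨?_, ?_⟩, ?_⟩ <;> simp [Matrix.mul_apply, Fin.sum_univ_two, h1, h2, h3, h4]

theorem anti_mul_anti {M N : Matrix (Fin 2) (Fin 2) C} (h1 : M 0 0 = 0) (h2 : M 1 1 = 0)
    (h3 : N 0 0 = 0) (h4 : N 1 1 = 0) : Diag (M * N) := by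
  refine ⟨?_, ?_⟩ <;> simp [Matrix.mul_apply, Fin.sum_univ_two, h1, h2, h3, h4]

theorem v_anti (n : ℕ) (i j : Fin n) : v n i j 0 0 = 0 ∧ v n i j 1 1 = 0 := by
  unfold v
  by_cases h : i = j
  · subst h
    rw [Matrix.diagonal_apply_eq]
    unfold g
    split_ifs <;> simp
  · rw [Matrix.diagonal_apply_ne _ h]
    exact ⟨rfl, rfl⟩

theorem idem_const (p : C) (hp : p * p = p) : ∃ c : ℂ, p = algebraMap ℂ C c := by
  have h : ∀ x, p x = 0 ∨ p x = 1 := by
    intro x
    have h1 : p x * p x = p x := by
      have := congrArg (fun q : C => q x) hp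
      simpa using this
    have h2 : p x * (p x - 1) = 0 := by rw [mul_sub, h1, mul_one, sub_self]
    rcases mul_eq_zero.1 h2 with h3 | h3
    · exact Or.inl h3
    · exact Or.inr (sub_eq_zero.1 h3)
  have hpc : PreconnectedSpace Circle := by
    have := (isPreconnected_univ (α := ℝ)).image Circle.exp (by fun_prop)
    rw [Set.image_univ] at this
    have hs : Set.range Circle.exp = Set.univ := by
      rw [Set.range_eq_univ]
      intro w
      exact ⟨Complex.arg (w : ℂ), Circle.exp_arg w⟩
    rw [hs] at this
    exact ⟨this⟩
  have hclopen : IsClopen {x | p x = 0} := by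
    constructor
    · exact isClosed_eq p.continuous continuous_const
    · have : {x | p x = 0} = {x | p x = 1}ᶜ := by
        ext x
        rcases h x with h | h <;> simp [h]
      rw [this, isOpen_compl_iff]
      exact isClosed_eq p.continuous continuous_const
  have hdisc : ∀ x y, p x = p y := by
    intro x y
    rcases isClopen_iff.1 hclopen with h1 | h1
    · have h2 : ∀ x, p x = 1 := by
        intro x
        rcases h x with h3 | h3
        · have : x ∈ {x | p x = 0} := h3
          rw [h1] at this
          exact absurd this (Set.notMem_empty x)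
        · exact h3
      rw [h2, h2]
    · have h2 : ∀ x, p x = 0 := by
        intro x
        have : x ∈ {x | p x = 0} := h1 ▸ Set.mem_univ x
        exact this
      rw [h2, h2]
  refine ⟨p 1, ?_⟩
  ext x
  simp [hdisc x 1]

/-- An algebra generated by idempotents is not mapped onto the projective algebra. -/
theorem not_surjective {n : ℕ} (hn : 2 ≤ n) {A : Type} [Ring A] [StarRing A] [Algebra ℂ A]
    [StarModule ℂ A] {u : Matrix (Fin n) (Fin n) A} (hu : IsHyperoctahedral n A u)
    {S : Type} [Ring S] [Algebra ℂ S] {E : Set S} (hE : Algebra.adjoin ℂ E = ⊤)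
    (hid : ∀ e ∈ E, e * e = e) (f : S →ₐ[ℂ] A) : f.range ≠ projective u := by
  intro hf
  obtain ⟨F, hF⟩ := hu.universal _ (v n) (cubic_v n)
  have hdiag : ∀ a ∈ projective u, Diag (F a) := by
    intro a ha
    unfold projective at ha
    induction ha using Algebra.adjoin_induction with
    | mem x hx =>
      obtain ⟨i, j, k, l, rfl⟩ := hx
      rw [map_mul, hF, hF]
      exact anti_mul_anti (v_anti n i j).1 (v_anti n i j).2 (v_anti n k l).1 (v_anti n k l).2
    | algebraMap r =>
      have : F (algebraMap ℂ A r) = algebraMap ℂ _ r := AlgHomClass.commutes F r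
      rw [this]
      refine ⟨?_, ?_⟩ <;> simp [Matrix.algebraMap_matrix_apply]
    | add x y _ _ hx hy =>
      rw [map_add]
      refine ⟨?_, ?_⟩
      · rw [Matrix.add_apply, hx.1, hy.1, add_zero]
      · rw [Matrix.add_apply, hx.2, hy.2, add_zero]
    | mul x y _ _ hx hy =>
      rw [map_mul]
      exact (diag_mul_apply hx hy).1
  have hd : ∀ s, Diag (F (f s)) := fun s => hdiag _ (hf ▸ ⟨s, rfl⟩)
  have hconst : ∀ s : S, ∃ c : ℂ, F (f s) 1 1 = algebraMap ℂ C c := by
    intro s
    have hs : s ∈ Algebra.adjoin ℂ E := hE ▸ Algebra.mem_top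
    induction hs using Algebra.adjoin_induction with
    | mem x hx =>
      apply idem_const
      rw [← (diag_mul_apply (hd x) (hd x)).2, ← map_mul, ← map_mul, hid x hx]
    | algebraMap r =>
      refine ⟨r, ?_⟩
      rw [AlgHom.commutes]
      have : F (algebraMap ℂ A r) = algebraMap ℂ _ r := AlgHomClass.commutes F r
      rw [this]
      simp [Matrix.algebraMap_matrix_apply]
    | add x y _ _ hx hy =>
      obtain ⟨c, hc⟩ := hx
      obtain ⟨d, hd⟩ := hy
      refine ⟨c + d, ?_⟩
      rw [map_add, map_add, Matrix.add_apply, hc, hd, map_add]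
    | mul x y _ _ hx hy =>
      obtain ⟨c, hc⟩ := hx
      obtain ⟨d, hd'⟩ := hy
      refine ⟨c * d, ?_⟩
      rw [map_mul, map_mul, (diag_mul_apply (hd x) (hd y)).2, hc, hd', map_mul]
  let i0 : Fin n := ⟨0, by omega⟩
  let i1 : Fin n := ⟨1, by omega⟩
  have hmem : u i0 i0 * u i1 i1 ∈ projective u := by
    unfold projective
    exact Algebra.subset_adjoin ⟨i0, i0, i1, i1, rfl⟩
  rw [← hf] at hmem
  obtain ⟨s, hs⟩ := hmem
  obtain ⟨c, hc⟩ := hconst s
  have hs' : f s = u i0 i0 * u i1 i1 := hs
  rw [hs', map_mul, hF, hF] at hc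
  have hv : (v n i0 i0 * v n i1 i1) 1 1 = z := by
    simp [v, g, i0, i1, Matrix.mul_apply, Fin.sum_univ_two]
  rw [hv] at hc
  have h1 : (z : C) 1 = c := by rw [hc]; simp
  have h2 : (z : C) (-1) = c := by rw [hc]; simp
  have h3 : (z : C) 1 = 1 := by rw [z_apply]; simp
  have h4 : (z : C) (-1) = -1 := by rw [z_apply]; simp
  rw [h3] at h1
  rw [h4, ← h1] at h2
  norm_num at h2

/-- For all `n ≥ 2`: for no `N` is there a surjective (unital, complex-linear, not necessarily
star preserving or compatible with the coproducts) homomorphism from the algebra of `S_N^+` to the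
algebra of `PH_n^+`, and for no finite simple graph `X` is the algebra of the quantum automorphism
group of `X` isomorphic to the algebra of `PH_n^+`. -/
theorem result (n : ℕ) (hn : 2 ≤ n) (A : Type) [Ring A] [StarRing A] [Algebra ℂ A]
    [StarModule ℂ A] (u : Matrix (Fin n) (Fin n) A) (hu : IsHyperoctahedral n A u) :
    (∀ (N : ℕ) (S : Type) [Ring S] [StarRing S] [Algebra ℂ S] [StarModule ℂ S]
      (w : Matrix (Fin N) (Fin N) S), IsQuantumSymmetric N S w →
        ¬ ∃ f : S →ₐ[ℂ] projective u, Function.Surjective f) ∧
    (∀ (V : Type) [Fintype V] (X : SimpleGraph V) [DecidableRel X.Adj]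
      (S : Type) [Ring S] [StarRing S] [Algebra ℂ S] [StarModule ℂ S]
      (w : Matrix V V S), IsQuantumAut X S w → IsEmpty (S ≃ₐ[ℂ] projective u)) := by
  constructor
  · rintro N S _ _ _ _ w hw ⟨f, hf⟩
    apply not_surjective hn hu hw.generates (by rintro _ ⟨i, j, rfl⟩; exact hw.rel.idem i j)
      ((projective u).val.comp f)
    rw [AlgHom.range_comp, (AlgHom.range_eq_top f).2 hf, Algebra.map_top, Subalgebra.range_val]
  · intro V _ X _ S _ _ _ _ w hw
    constructor
    intro e
    apply not_surjective hn hu hw.generates (by rintro _ ⟨i, j, rfl⟩; exact hw.rel.idem i j)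
      ((projective u).val.comp (e : S →ₐ[ℂ] projective u))
    rw [AlgHom.range_comp, (AlgHom.range_eq_top (e : S →ₐ[ℂ] projective u)).2 e.surjective,
      Algebra.map_top, Subalgebra.range_val]

end

end Pool.Agent.Results.MP_8a5df5_al.NotQuantumPermutation
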